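import Pool.Agent.Helper55.SCH.Goals

set_option autoImplicit false

namespace Pool.Agent.Helper2.SCH

open Finset Pool.Agent.Helper55.SCH

theorem prod_facts (A : Finset ℕ) (a b : ℕ → ℝ) (ha : ∀ x, 0 ≤ a x ∧ a x ≤ 1)
    (hb : ∀ x, 0 ≤ b x ∧ b x ≤ 1) :
    0 ≤ ∑ x ∈ A, a x * b x ∧ ∑ x ∈ A, a x * b x ≤ ∑ x ∈ A, a x ∧
    ∑ x ∈ A, a x * b x ≤ ∑ x ∈ A, b x ∧
    ∑ x ∈ A, a x + ∑ x ∈ A, b x ≤ (A.card : ℝ) + ∑ x ∈ A, a x * b x := by
  refine ⟨sum_nonneg fun x _ => mul_nonneg (ha x).1 (hb x).1, sum_le_sum fun x _ => ?_,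
    sum_le_sum fun x _ => ?_, ?_⟩
  · exact mul_le_of_le_one_right (ha x).1 (hb x).2
  · exact mul_le_of_le_one_left (hb x).1 (ha x).2
  · have h : 0 ≤ ∑ x ∈ A, (1 - a x) * (1 - b x) :=
      sum_nonneg fun x _ => mul_nonneg (by linarith [(ha x).2]) (by linarith [(hb x).2])
    have h2 : ∑ x ∈ A, (1 - a x) * (1 - b x) =
        (A.card : ℝ) - ∑ x ∈ A, a x - ∑ x ∈ A, b x + ∑ x ∈ A, a x * b x := by
      have : ∀ x ∈ A, (1 - a x) * (1 - b x) = 1 - a x - b x + a x * b x := fun x _ => by ring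
      rw [sum_congr rfl this, sum_add_distrib, sum_sub_distrib, sum_sub_distrib]
      simp
    linarith

theorem sum_facts (A : Finset ℕ) (a : ℕ → ℝ) (ha : ∀ x, 0 ≤ a x ∧ a x ≤ 1) :
    0 ≤ ∑ x ∈ A, a x ∧ ∑ x ∈ A, a x ≤ (A.card : ℝ) := by
  refine ⟨sum_nonneg fun x _ => (ha x).1, ?_⟩
  calc ∑ x ∈ A, a x ≤ ∑ x ∈ A, (1 : ℝ) := sum_le_sum fun x _ => (ha x).2
    _ = A.card := by simp

theorem icc_ioc (k : ℕ) : Icc 1 k = Ioc 0 k := by
  ext x; simp only [mem_Icc, mem_Ioc]; omega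

theorem split (f : ℕ → ℝ) {a b : ℕ} (h : a ≤ b) :
    ∑ x ∈ Icc 1 a, f x + ∑ x ∈ Ioc a b, f x = ∑ x ∈ Icc 1 b, f x := by
  rw [icc_ioc, icc_ioc]
  exact sum_Ioc_consecutive f (Nat.zero_le a) h

theorem al_sum (f : ℕ → ℝ) (A : Finset ℕ) :
    ∑ x ∈ A, al f x = ((A.card : ℝ) + ∑ x ∈ A, f x) / 2 := by
  unfold al
  rw [← sum_div, sum_add_distrib]
  simp

theorem reflect (f : ℕ → ℝ) (c a b : ℕ) (hb : b ≤ c) :
    ∑ x ∈ Ioc a b, f (c + 1 - x) = ∑ x ∈ Ioc (c - b) (c - a), f x := by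
  apply sum_nbij' (fun x => c + 1 - x) (fun x => c + 1 - x)
  · intro x hx; simp only [mem_Ioc] at hx ⊢; omega
  · intro x hx; simp only [mem_Ioc] at hx ⊢; omega
  · intro x hx; simp only [mem_Ioc] at hx ⊢; omega
  · intro x hx; simp only [mem_Ioc] at hx ⊢; omega
  · intro x hx; rfl

theorem max_sub (t : ℝ) : max (-t) 0 - max t 0 = -t := by
  rcases le_total 0 t with h | h
  · rw [max_eq_left h, max_eq_right (by linarith)]; ring
  · rw [max_eq_right h, max_eq_left (by linarith)]; ring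

theorem max_zero (t : ℝ) : max (-t) 0 = 0 ∨ max t 0 = 0 := by
  rcases le_total 0 t with h | h
  · left; exact max_eq_right (by linarith)
  · right; exact max_eq_right h

theorem goalDATA : G_DATA := by
  intro hHUB hDZ hDW hDT hTG hTW hTI hCR c u lam s r h hu1 p hpu hp2
  have hlam : 1 ≤ lam := h.lam1
  have hlam0 : 0 < lam := by linarith
  have hcl : 0 ≤ (c : ℝ) / lam := by positivity
  have huc : u ≤ c := h.hu
  obtain ⟨hPhi, -⟩ := hHUB lam hlam0
  have hs1 : ∀ x, |s x| ≤ 1 := by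
    intro x
    by_cases hx : x ∈ Icc 1 c
    · rw [h.hs x hx, abs_neg]; exact hPhi _
    · rw [h.s0 x hx]; simp
  have hr1 : ∀ x, |r x| ≤ 1 := by
    intro x
    by_cases hx : x ∈ Icc 1 u
    · rw [h.hr x hx, abs_neg]; exact hPhi _
    · rw [h.r0 x hx]; simp
  have has : ∀ x, 0 ≤ al s x ∧ al s x ≤ 1 := by
    intro x
    have := abs_le.mp (hs1 x)
    unfold al
    constructor <;> linarith [this.1, this.2]
  have har : ∀ x, 0 ≤ al r x ∧ al r x ≤ 1 := by
    intro x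
    have := abs_le.mp (hr1 x)
    unfold al
    constructor <;> linarith [this.1, this.2]
  -- half of `u`
  obtain ⟨k, hk⟩ : ∃ k, k = u / 2 := ⟨_, rfl⟩
  have hk2 : 2 * k ≤ u := by omega
  have hk3 : u ≤ 2 * k + 1 := by omega
  have hku : k ≤ u := by omega
  have hk2' : 2 * (k : ℝ) ≤ u := by exact_mod_cast hk2
  have hk3' : (u : ℝ) ≤ 2 * k + 1 := by exact_mod_cast hk3
  -- symmetry of `r`
  have hsym : |S r u - 2 * S r k| ≤ 1 := by
    have e1 : ∑ x ∈ Ioc 0 k, r (u + 1 - x) = ∑ x ∈ Ioc (u - k) (u - 0), r x :=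
      reflect r u 0 k hku
    have e2 : ∑ x ∈ Ioc 0 k, r (u + 1 - x) = S r k := by
      unfold S
      rw [icc_ioc]
      refine sum_congr rfl fun x hx => ?_
      have hx' := mem_Ioc.mp hx
      exact h.rs x (mem_Icc.mpr ⟨by omega, by omega⟩)
    have e3 := split r (show u - k ≤ u by omega)
    rw [Nat.sub_zero] at e1
    have e4 : ∑ x ∈ Ioc (u - k) u, r x = S r k := by rw [← e1, e2]
    rw [e4] at e3
    have e5 : S r u = ∑ x ∈ Icc 1 (u - k), r x + S r k := by rw [e3]; rfl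
    rcases (show u - k = k ∨ u - k = k + 1 by omega) with e6 | e6
    · rw [e6] at e5
      have : S r u = S r k + S r k := e5
      rw [this]
      have : S r k + S r k - 2 * S r k = 0 := by ring
      rw [this]; simp
    · rw [e6, sum_Icc_succ_top (by omega)] at e5
      have : S r u = S r k + r (k + 1) + S r k := e5
      rw [this]
      have : S r k + r (k + 1) + S r k - 2 * S r k = r (k + 1) := by ring
      rw [this]; exact hr1 _
  obtain ⟨hsym1, hsym2⟩ := abs_le.mp hsym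
  -- `S r (c - p) = S r u`
  have hSr : S r (c - p) = S r u := by
    have e1 := split r (show u ≤ c - p by omega)
    have e2 : ∑ x ∈ Ioc u (c - p), r x = 0 := by
      refine sum_eq_zero fun x hx => ?_
      have hx' := mem_Ioc.mp hx
      exact h.r0 x (fun hh => by have := mem_Icc.mp hh; omega)
    rw [e2, add_zero] at e1
    exact e1.symm
  have hS0 : S r 0 = 0 := by unfold S; simp
  -- casts
  have cpu : (p : ℝ) + u ≤ c := by exact_mod_cast hpu
  have cp2 : 2 * (p : ℝ) ≤ c := by exact_mod_cast hp2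
  have cuc : (u : ℝ) ≤ c := by exact_mod_cast huc
  have cp0 : (0 : ℝ) ≤ p := Nat.cast_nonneg _
  have cu0 : (0 : ℝ) ≤ u := Nat.cast_nonneg _
  have cc0 : (0 : ℝ) ≤ c := Nat.cast_nonneg _
  have ccp : ((c - p : ℕ) : ℝ) = (c : ℝ) - p := Nat.cast_sub (by omega)
  -- sums
  have sA1 : ∑ x ∈ Icc 1 p, al s x = ((p : ℝ) + S s p) / 2 := by
    rw [al_sum]; simp [S]
  have sau : ∑ x ∈ Icc 1 u, al s x = ((u : ℝ) + S s u) / 2 := by
    rw [al_sum]; simp [S]
  have sa2 : ∑ x ∈ Icc 1 k, al s x = ((k : ℝ) + S s k) / 2 := by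
    rw [al_sum]; simp [S]
  have sr2 : ∑ x ∈ Icc 1 k, al r x = ((k : ℝ) + S r k) / 2 := by
    rw [al_sum]; simp [S]
  have sru : ∑ x ∈ Icc 1 u, al r x = ((u : ℝ) + S r u) / 2 := by
    rw [al_sum]; simp [S]
  have sAc : ∑ x ∈ Icc 1 c, al s x = ((c : ℝ) + S s c) / 2 := by
    rw [al_sum]; simp [S]
  have spA := split (al s) (show c - p ≤ c by omega)
  have spp := split (al s) (show p ≤ c - p by omega)
  have spu := split (al s) (show u ≤ c - p by omega)
  have spk := split (al s) hku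
  have sprk := split (al r) hku
  have spx := split (fun v => al s v * al r v) hku
  try simp only at spx
  -- cardinalities
  have k1 : ((Icc 1 p).card : ℝ) = p := by simp
  have k2 : ((Ioc p (c - p)).card : ℝ) = (c : ℝ) - 2 * p := by
    rw [Nat.card_Ioc, Nat.cast_sub (by omega), ccp]; ring
  have k3 : ((Ioc (c - p) c).card : ℝ) = p := by
    rw [Nat.card_Ioc, Nat.cast_sub (by omega), ccp]; ring
  have k4 : ((Icc 1 k).card : ℝ) = k := by simp
  have k5 : ((Ioc k u).card : ℝ) = (u : ℝ) - k := by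
    rw [Nat.card_Ioc, Nat.cast_sub hku]
  have k6 : ((Ioc u (c - p)).card : ℝ) = (c : ℝ) - p - u := by
    rw [Nat.card_Ioc, Nat.cast_sub (by omega), ccp]
  have k7 : ((Icc 1 u).card : ℝ) = u := by simp
  -- products
  obtain ⟨a1, a2, a3, a4⟩ := prod_facts (Icc 1 p) (al s) (fun x => al s (c + 1 - x)) has
    (fun x => has _)
  obtain ⟨b1, b2, b3, b4⟩ := prod_facts (Ioc p (c - p)) (al s) (fun x => al s (c + 1 - x)) has
    (fun x => has _)
  obtain ⟨c1, c2, c3, c4⟩ := prod_facts (Icc 1 k) (al s) (al r) has har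
  obtain ⟨d1, d2, d3, d4⟩ := prod_facts (Ioc k u) (al s) (al r) has har
  try simp only at a1 a2 a3 a4 b1 b2 b3 b4
  have r1 : ∑ x ∈ Icc 1 p, al s (c + 1 - x) = ∑ x ∈ Ioc (c - p) c, al s x := by
    rw [icc_ioc, reflect (al s) c 0 p (by omega), Nat.sub_zero]
  have r2 : ∑ x ∈ Ioc p (c - p), al s (c + 1 - x) = ∑ x ∈ Ioc p (c - p), al s x := by
    rw [reflect (al s) c p (c - p) (by omega)]
    congr 2
    omega
  rw [r1] at a3 a4
  rw [r2] at b3 b4
  rw [k1] at a4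
  rw [k2] at b4
  rw [k4] at c4
  rw [k5] at d4
  obtain ⟨f1, f2⟩ := sum_facts (Icc 1 p) (al s) has
  obtain ⟨f3, f4⟩ := sum_facts (Ioc p (c - p)) (al s) has
  obtain ⟨f5, f6⟩ := sum_facts (Ioc (c - p) c) (al s) has
  obtain ⟨f7, f8⟩ := sum_facts (Icc 1 k) (al s) has
  obtain ⟨f9, f10⟩ := sum_facts (Ioc k u) (al s) has
  obtain ⟨f11, f12⟩ := sum_facts (Ioc u (c - p)) (al s) has
  obtain ⟨f13, f14⟩ := sum_facts (Icc 1 u) (al r) har
  obtain ⟨f15, f16⟩ := sum_facts (Icc 1 u) (al s) has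
  rw [k1] at f2
  rw [k2] at f4
  rw [k3] at f6
  rw [k4] at f8
  rw [k5] at f10
  rw [k6] at f12
  rw [k7] at f14 f16
  -- values of `g1`
  have g0 : g1 c u s r 0 = 2 * S s c + 2 * S r u := by
    unfold g1; rw [hS0, Nat.sub_zero]; ring
  have gp : g1 c u s r (c - p) = S s c + S s p := by
    unfold g1; rw [hSr, show c - (c - p) = p by omega]; ring
  have m0 : max (-g1 c u s r 0) 0 - max (g1 c u s r 0) 0 = -(2 * S s c + 2 * S r u) := by
    rw [max_sub, g0]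
  have mp : max (-g1 c u s r (c - p)) 0 - max (g1 c u s r (c - p)) 0 = -(S s c + S s p) := by
    rw [max_sub, gp]
  have mw0 := max_sub (S s u + S r u)
  have mwm := max_sub (2 * S s k + S r u)
  obtain ⟨z1, z2⟩ := hDZ hHUB hTG c u lam s r h p hpu hp2 _ rfl
  have z3 := hDW hHUB hTW c u lam s r h hu1 _ rfl
  obtain ⟨t1, t2, t3, t4, t5⟩ := hDT hHUB hTI hCR c u lam s r h hu1 p hpu hp2 _ rfl
  obtain ⟨E, hE⟩ : ∃ E : ℝ, E = 20 * (lam + c / lam) := ⟨_, rfl⟩
  have hE20 : 20 ≤ E := by rw [hE]; linarith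
  have hE10 : 10 * (lam + c / lam) ≤ E := by rw [hE]; linarith
  rw [← hE] at z3 t1 t2 t3 t4 t5 ⊢
  simp only [mkV, ← hk] at z1 z2 z3 t1 t2 t3 t4 t5
  have hneg := h.neg
  constructor <;> simp only [mkV, ← hk]
  all_goals first
    | assumption
    | exact le_max_right _ _
    | exact max_zero _
    | exact (max_zero _).symm
    | linarith
    | (rw [abs_le]; constructor <;> linarith)

end Pool.Agent.Helper2.SCH
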